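import Pool.Agent.Y697.PP.Cmp

/-! The upper bound for the number of the completions which are not degenerate. -/

set_option autoImplicit false

namespace Pool.Agent.E8helper79.QI

open Finset Module
open Pool.Agent.Y697.PP

variable {V : Type} [AddCommGroup V] [Module (ZMod 2) V] [Finite V]

/-- the radical of the restriction to `W` -/
def Rd (B : LinearMap.BilinForm (ZMod 2) V) (W : Submodule (ZMod 2) V) : Submodule (ZMod 2) V where
  carrier := {x | x ∈ W ∧ ∀ w ∈ W, B x w = 0}
  add_mem' := fun {x y} hx hy => ⟨W.add_mem hx.1 hy.1, fun w hw => by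
    rw [map_add, LinearMap.add_apply, hx.2 w hw, hy.2 w hw, add_zero]⟩
  zero_mem' := ⟨W.zero_mem, fun w _ => by rw [map_zero, LinearMap.zero_apply]⟩
  smul_mem' := fun c x hx => ⟨W.smul_mem c hx.1, fun w hw => by
    rw [map_smul, LinearMap.smul_apply, hx.2 w hw, smul_zero]⟩

omit [Finite V] in
theorem mem_Rd {B : LinearMap.BilinForm (ZMod 2) V} {W : Submodule (ZMod 2) V} {x : V} :
    x ∈ Rd B W ↔ x ∈ W ∧ ∀ w ∈ W, B x w = 0 := Iff.rfl

theorem gg_anti' {a b : ℕ} (h : a ≤ b) : gg b ≤ gg a := by
  induction h with
  | refl => exact le_rfl
  | step _ ih => exact (gg_anti _).trans ih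

theorem gg_le_one (t : ℕ) : gg t ≤ 1 := gg_anti' (Nat.zero_le t)

open Classical in
theorem card_NN_up {W : Submodule (ZMod 2) V} {v : V} (hv : v ∉ W)
    (B : LinearMap.BilinForm (ZMod 2) V) (c : Dual (ZMod 2) V → ℝ)
    (hc : ∀ φ ∈ Ph W, ∀ Y₀ : LinearMap.BilinForm (ZMod 2) V, Y₀ ∈ YY W → Y₀ v = φ →
      ((NN (B + Y₀) (W ⊔ Submodule.span (ZMod 2) {v})).card : ℝ) ≤ c φ) :
    ((NN B W).card : ℝ) ≤ ∑ φ ∈ Ph W, c φ := by
  rw [Finset.card_eq_sum_card_fiberwise (f := fun Y : LinearMap.BilinForm (ZMod 2) V => Y v)
    (t := Ph W) (by
      intro Y hY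
      have h := (mem_NN.1 hY).1
      refine mem_Ph.2 fun w hw => ?_
      rw [h.1, h.2 w hw, LinearMap.zero_apply])]
  push_cast
  refine Finset.sum_le_sum fun φ hφ => ?_
  obtain ⟨Y₀, h1, h2⟩ := exists_row hv φ (mem_Ph.1 hφ)
  have h3 := card_fiber hv φ h1 h2 (fun Y => Nd (B + Y) ⊤)
  have h4 := hc φ hφ Y₀ h1 h2
  have h5 : (NN (B + Y₀) (W ⊔ Submodule.span (ZMod 2) {v})).card =
      ((YY (W ⊔ Submodule.span (ZMod 2) {v})).filter fun Y => Nd (B + (Y₀ + Y)) ⊤).card := by
    unfold NN
    congr 1
    refine Finset.filter_congr fun Y _ => ?_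
    rw [add_assoc]
  rw [h5, ← h3] at h4
  exact h4

open Classical in
theorem up_cmp (t : ℕ) : ∀ (r : ℕ) (B : LinearMap.BilinForm (ZMod 2) V) (W : Submodule (ZMod 2) V),
      Sy B → finrank (ZMod 2) W + t = finrank (ZMod 2) V → finrank (ZMod 2) (Rd B W) ≤ r →
      ((NN B W).card : ℝ) ≤ gg (t - r) * (YY W).card := by
  have hfin : Module.Finite (ZMod 2) V := Module.Finite.of_finite
  have hsub : ∀ (B : LinearMap.BilinForm (ZMod 2) V) (W : Submodule (ZMod 2) V),
      ((NN B W).card : ℝ) ≤ (YY W).card := by
    intro B W
    unfold NN
    exact_mod_cast Finset.card_filter_le _ _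
  induction t with
  | zero =>
    intro r B W _ _ _
    rw [Nat.zero_sub, show gg 0 = 1 from rfl, one_mul]
    exact hsub B W
  | succ t ih =>
    intro r B W hB ht hr
    have hnn : (0 : ℝ) ≤ gg (t + 1 - r) * (YY W).card := mul_nonneg (gg_nonneg _) (Nat.cast_nonneg _)
    by_cases hRad : ∃ r ∈ W, r ≠ 0 ∧ ∀ w ∈ W, B r w = 0
    · obtain ⟨r₀, hr₀, hr0, hrW⟩ := hRad
      by_cases hex : ∃ v, B r₀ v = 1
      · obtain ⟨v, hrv⟩ := hex
        have hv : v ∉ W := fun h => by rw [hrW v h] at hrv; exact absurd hrv (by decide)
        have h1 := card_NN_up hv B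
          (fun _ => gg (t - (r - 1)) * (YY (W ⊔ Submodule.span (ZMod 2) {v})).card) (by
            intro φ _ Y₀ hY₀ _
            have hY' := mem_YY.1 hY₀
            refine ih (r - 1) _ _ (hB.add hY'.1) (finrank_sup hv ht) ?_
            have h2 : Rd (B + Y₀) (W ⊔ Submodule.span (ZMod 2) {v}) < Rd B W := by
              refine lt_of_le_of_ne ?_ ?_
              · intro x hx
                obtain ⟨hx1, hx2⟩ := mem_Rd.1 hx
                have hxW : x ∈ W := by
                  rcases mem_sup_iff hx1 with h | ⟨w, hw, rfl⟩
                  · exact h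
                  · exfalso
                    have h3 := hx2 r₀ (Submodule.mem_sup_left hr₀)
                    rw [LinearMap.add_apply, LinearMap.add_apply, map_add, LinearMap.add_apply,
                      hB w r₀, hrW w hw, hB v r₀, hrv, hY'.1 (w + v) r₀, hY'.2 r₀ hr₀,
                      LinearMap.zero_apply] at h3
                    revert h3
                    decide
                refine mem_Rd.2 ⟨hxW, fun w hw => ?_⟩
                have h3 := hx2 w (Submodule.mem_sup_left hw)
                rw [LinearMap.add_apply, LinearMap.add_apply, hY'.2 x hxW, LinearMap.zero_apply,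
                  add_zero] at h3
                exact h3
              · intro h
                have h3 : r₀ ∈ Rd (B + Y₀) (W ⊔ Submodule.span (ZMod 2) {v}) := by
                  rw [h]
                  exact mem_Rd.2 ⟨hr₀, hrW⟩
                have h4 := (mem_Rd.1 h3).2 v
                  (Submodule.mem_sup_right (Submodule.mem_span_singleton_self v))
                rw [LinearMap.add_apply, LinearMap.add_apply, hY'.2 r₀ hr₀, LinearMap.zero_apply,
                  add_zero, hrv] at h4
                exact absurd h4 (by decide)
            have h3 := Submodule.finrank_lt_finrank_of_lt h2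
            omega)
        rw [Finset.sum_const, nsmul_eq_mul] at h1
        have hr1 : 1 ≤ r := by
          refine le_trans ?_ hr
          rw [Nat.succ_le_iff, Module.finrank_pos_iff_exists_ne_zero]
          exact ⟨⟨r₀, mem_Rd.2 ⟨hr₀, hrW⟩⟩, fun h => hr0 (congrArg Subtype.val h)⟩
        rw [card_YY hv]
        have e1 : t + 1 - r = t - (r - 1) := by omega
        rw [e1]
        push_cast
        linarith
      · -- degenerate
        have h1 : (NN B W).card = 0 := by
          rw [Finset.card_eq_zero, Finset.eq_empty_iff_forall_notMem]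
          intro Y hY
          obtain ⟨⟨_, h2⟩, h3⟩ := mem_NN.1 hY
          apply hr0
          apply h3 r₀ trivial
          refine LinearMap.ext fun v => ?_
          rw [LinearMap.add_apply, h2 r₀ hr₀, add_zero, LinearMap.zero_apply]
          exact (z2 (B r₀ v)).resolve_right fun h => hex ⟨v, h⟩
        rw [h1, Nat.cast_zero]
        exact hnn
    · have hR : ∀ r ∈ W, (∀ w ∈ W, B r w = 0) → r = 0 := by
        intro r hr h
        by_contra h0
        exact hRad ⟨r, hr, h0, h⟩
      have hWtop : W ≠ ⊤ := by
        rintro rfl
        rw [finrank_top] at ht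
        omega
      obtain ⟨v, hv, hvW⟩ := exists_orth hB hR hWtop
      have hv0 : v ≠ 0 := fun h => hv (by rw [h]; exact W.zero_mem)
      set C : ℝ := ((YY (W ⊔ Submodule.span (ZMod 2) {v})).card : ℝ) with hC
      have hC0 : 0 ≤ C := Nat.cast_nonneg _
      have hBv : B v ∈ Ph W := mem_Ph.2 hvW
      -- the radical of the extension
      have hRv : ∀ Y₀ : LinearMap.BilinForm (ZMod 2) V, Y₀ ∈ YY W →
          ∀ x ∈ Rd (B + Y₀) (W ⊔ Submodule.span (ZMod 2) {v}), x = 0 ∨ x = v := by
        intro Y₀ hY₀ x hx
        have hY' := mem_YY.1 hY₀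
        obtain ⟨hx1, hx2⟩ := mem_Rd.1 hx
        rcases mem_sup_iff hx1 with h | ⟨w, hw, rfl⟩
        · left
          apply hR x h
          intro w hw
          have h3 := hx2 w (Submodule.mem_sup_left hw)
          rw [LinearMap.add_apply, LinearMap.add_apply, hY'.2 x h, LinearMap.zero_apply,
            add_zero] at h3
          exact h3
        · right
          have h2 : w = 0 := by
            apply hR w hw
            intro w' hw'
            have h1 := hx2 w' (Submodule.mem_sup_left hw')
            rw [LinearMap.add_apply, LinearMap.add_apply, map_add, LinearMap.add_apply, hvW w' hw',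
              hY'.1 (w + v) w', hY'.2 w' hw', LinearMap.zero_apply, add_zero, add_zero] at h1
            exact h1
          rw [h2, zero_add]
      have h1 := card_NN_up hv B (fun φ => if B v v + φ v = 1 then gg t * C else
        if B v + φ = 0 then 0 else gg (t - 1) * C) (by
          intro φ hφ Y₀ hY₀ hY₀v
          have e1 : (B + Y₀) v = B v + φ := by rw [LinearMap.add_apply, hY₀v]
          have hvs : v ∈ W ⊔ Submodule.span (ZMod 2) {v} :=
            Submodule.mem_sup_right (Submodule.mem_span_singleton_self v)
          split_ifs with q1 q2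
          · refine (ih 0 _ _ (hB.add (mem_YY.1 hY₀).1) (finrank_sup hv ht) ?_).trans
              (le_of_eq (by rw [Nat.sub_zero]))
            have h3 : Rd (B + Y₀) (W ⊔ Submodule.span (ZMod 2) {v}) = ⊥ := by
              rw [Submodule.eq_bot_iff]
              intro x hx
              rcases hRv Y₀ hY₀ x hx with h | h
              · exact h
              · exfalso
                have h4 := (mem_Rd.1 hx).2 v hvs
                rw [h, e1, LinearMap.add_apply, q1] at h4
                exact absurd h4 (by decide)
            rw [h3, finrank_bot]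
          · apply le_of_eq
            rw [Nat.cast_eq_zero, Finset.card_eq_zero, Finset.eq_empty_iff_forall_notMem]
            intro Y hY
            obtain ⟨⟨_, h2⟩, h3⟩ := mem_NN.1 hY
            apply hv0
            apply h3 v trivial
            rw [LinearMap.add_apply, e1, q2, h2 v hvs, add_zero]
          · refine ih 1 _ _ (hB.add (mem_YY.1 hY₀).1) (finrank_sup hv ht) ?_
            refine (Submodule.finrank_mono (t := Submodule.span (ZMod 2) {v}) ?_).trans
              (finrank_span_singleton hv0).le
            intro x hx
            rcases hRv Y₀ hY₀ x hx with rfl | rfl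
            · exact Submodule.zero_mem _
            · exact Submodule.mem_span_singleton_self _)
      have h2 : ∑ φ ∈ Ph W, (if B v v + φ v = 1 then gg t * C else
          if B v + φ = 0 then 0 else gg (t - 1) * C) =
          ((2 : ℝ) ^ t) * (gg t * C) + ((2 : ℝ) ^ t - 1) * (gg (t - 1) * C) := by
        have e1 : ∀ φ ∈ Ph W, (if B v v + φ v = 1 then gg t * C else
            if B v + φ = 0 then 0 else gg (t - 1) * C) =
            (if B v v + φ v = 1 then gg t * C else gg (t - 1) * C) -
            (if φ = B v then gg (t - 1) * C else 0) := by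
          intro φ _
          have e3 : B v + φ = 0 ↔ φ = B v := by
            constructor
            · intro h
              ext x
              have := congrArg (fun z : Dual (ZMod 2) V => z x) h
              simp only [LinearMap.add_apply, LinearMap.zero_apply] at this
              linear_combination this - (B v x) * two0
            · rintro rfl
              ext x
              simp only [LinearMap.add_apply, LinearMap.zero_apply]
              linear_combination (B v x) * two0
          by_cases q2 : φ = B v
          · have q1 : ¬ B v v + φ v = 1 := by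
              rw [q2]
              intro h
              have : (1 : ZMod 2) = 0 := by linear_combination (B v v) * two0 - h
              exact absurd this (by decide)
            rw [if_neg q1, if_pos (e3.2 q2), if_neg q1, if_pos q2, sub_self]
          · rw [if_neg q2, sub_zero, if_neg (fun h => q2 (e3.1 h))]
        rw [Finset.sum_congr rfl e1, Finset.sum_sub_distrib, Finset.sum_ite_eq' (Ph W) (B v),
          if_pos hBv, Finset.sum_ite, Finset.sum_const, Finset.sum_const]
        have e2 := card_half hv (B v v)
        have e3 := card_Ph W ht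
        have e4 := Finset.card_filter_add_card_filter_not (s := Ph W)
          (fun φ : Dual (ZMod 2) V => B v v + φ v = 1)
        have e5 : ((Ph W).filter fun φ : Dual (ZMod 2) V => B v v + φ v = 1).card = 2 ^ t := by
          rw [e3, pow_succ] at e2
          omega
        have e6 : ((Ph W).filter fun φ : Dual (ZMod 2) V => ¬ B v v + φ v = 1).card = 2 ^ t := by
          rw [e3, pow_succ] at e4
          omega
        rw [e5, e6]
        simp only [nsmul_eq_mul]
        push_cast
        ring
      rw [h2] at h1
      have h5 : ((NN B W).card : ℝ) ≤ gg (t + 1) * (YY W).card := by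
        rw [card_YY hv, card_Ph W ht]
        push_cast
        refine le_trans h1 (le_of_eq ?_)
        rw [← hC]
        rcases t with _ | t
        · have : gg (0 + 1) = 1 / 2 := by
            show gg 0 * (if Even 0 then 1 - 1 / 2 ^ (0 + 1) else 1) = 1 / 2
            rw [if_pos (by decide : Even 0), show gg 0 = 1 from rfl]
            norm_num
          rw [this]
          simp only [show gg 0 = 1 from rfl]
          ring
        · rw [show t + 1 + 1 = t + 2 from rfl, gg_rec t, show t + 1 - 1 = t from rfl]
          have h3 : (2 : ℝ) ^ (t + 2) = 2 * 2 ^ (t + 1) := by ring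
          have h4 : (2 : ℝ) ^ (t + 1) ≠ 0 := by positivity
          rw [h3]
          field_simp
      exact h5.trans (mul_le_mul_of_nonneg_right (gg_anti' (by omega)) (Nat.cast_nonneg _))

end Pool.Agent.E8helper79.QI
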