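import Pool.Agent.Y697.PP.LA
import Pool.Agent.E8helper79.QI.Up

/-! The number of the completions of a weighted graph which are degenerate. -/

set_option autoImplicit false

namespace Pool.Agent.E8helper79.QI

open Finset Module
open Pool.Agent.Y697.PP

section fill

variable {α ι : Type} [Fintype α] [DecidableEq α] [Fintype ι] [DecidableEq ι] [LinearOrder ι]

theorem finrank_W0 : finrank (ZMod 2) (W0 α ι) ≤ Fintype.card α + 1 := by
  rcases isEmpty_or_nonempty ι with h | ⟨⟨i₀⟩⟩
  · refine (Submodule.finrank_le _).trans ?_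
    rw [Module.finrank_fintype_fun_eq_card, Fintype.card_sum, Fintype.card_eq_zero (α := ι)]
    omega
  · let f : W0 α ι →ₗ[ZMod 2] (α → ZMod 2) × ZMod 2 :=
      { toFun := fun x => (fun v => x.1 (Sum.inl v), x.1 (Sum.inr i₀))
        map_add' := fun x y => rfl
        map_smul' := fun c x => rfl }
    have hf : Function.Injective f := by
      intro x y h
      apply Subtype.ext
      funext w
      rcases w with v | i
      · exact congrFun (congrArg Prod.fst h) v
      · have h1 : x.1 (Sum.inr i₀) = y.1 (Sum.inr i₀) := congrArg Prod.snd h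
        have hx : x.1 (Sum.inr i) = x.1 (Sum.inr i₀) := mem_W0.1 x.2 i i₀
        have hy : y.1 (Sum.inr i) = y.1 (Sum.inr i₀) := mem_W0.1 y.2 i i₀
        rw [hx, hy, h1]
    have h := LinearMap.finrank_le_finrank_of_injective hf
    rw [Module.finrank_prod, Module.finrank_fintype_fun_eq_card, Module.finrank_self] at h
    exact h

open Classical in
theorem count_fill_up (B : LinearMap.BilinForm (ZMod 2) (α ⊕ ι → ZMod 2)) (hB : Sy B) {T : ℕ}
    (hT : T + Fintype.card α + 2 ≤ Fintype.card ι) :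
    ((univ.filter fun a : EE ι → ZMod 2 => Nd (B + BB 0 (At α a)) ⊤).card : ℝ) ≤
      gg T * 2 ^ (EE ι).card := by
  have hfin : Module.Finite (ZMod 2) (α ⊕ ι → ZMod 2) := inferInstance
  have h1 : (YY (W0 α ι)).card = 2 ^ (EE ι).card := by
    have h2 : (univ : Finset (EE ι → ZMod 2)).card = (YY (W0 α ι)).card := by
      refine Finset.card_bij (fun a _ => BB 0 (At α a)) (fun a _ => YA_mem a)
        (fun a _ b _ h => YA_inj h) (fun Y hY => ?_)
      obtain ⟨a, ha⟩ := YA_surj hY
      exact ⟨a, Finset.mem_univ a, ha⟩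
    rw [← h2, Finset.card_univ, Fintype.card_fun, ZMod.card, Fintype.card_coe]
  have h2 : (univ.filter fun a : EE ι → ZMod 2 => Nd (B + BB 0 (At α a)) ⊤).card =
      (NN B (W0 α ι)).card := by
    refine Finset.card_bij (fun a _ => BB 0 (At α a)) (fun a ha => ?_)
      (fun a _ b _ h => YA_inj h) (fun Y hY => ?_)
    · rw [Finset.mem_filter] at ha
      exact mem_NN.2 ⟨mem_YY.1 (YA_mem a), ha.2⟩
    · rw [mem_NN] at hY
      obtain ⟨a, ha⟩ := YA_surj (mem_YY.2 hY.1)
      refine ⟨a, Finset.mem_filter.2 ⟨Finset.mem_univ a, ?_⟩, ha⟩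
      rw [ha]
      exact hY.2
  have h3 : finrank (ZMod 2) (W0 α ι) ≤ Fintype.card α + 1 := finrank_W0
  have h4 : finrank (ZMod 2) (W0 α ι) ≤ finrank (ZMod 2) (α ⊕ ι → ZMod 2) := Submodule.finrank_le _
  have h5 : finrank (ZMod 2) (α ⊕ ι → ZMod 2) = Fintype.card α + Fintype.card ι := by
    rw [Module.finrank_fintype_fun_eq_card, Fintype.card_sum]
  have h6 : finrank (ZMod 2) (Rd B (W0 α ι)) ≤ finrank (ZMod 2) (W0 α ι) :=
    Submodule.finrank_mono fun x hx => hx.1
  have h7 := up_cmp (V := α ⊕ ι → ZMod 2) (finrank (ZMod 2) (α ⊕ ι → ZMod 2) -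
    finrank (ZMod 2) (W0 α ι)) (finrank (ZMod 2) (W0 α ι)) B (W0 α ι) hB (by omega) h6
  rw [h2]
  refine h7.trans ?_
  rw [h1]
  push_cast
  exact mul_le_mul_of_nonneg_right (gg_anti' (by omega)) (by positivity)

open Classical in
theorem not_fill (B : LinearMap.BilinForm (ZMod 2) (α ⊕ ι → ZMod 2)) (hB : Sy B) {T : ℕ}
    (hT : T + Fintype.card α + 2 ≤ Fintype.card ι) :
    (1 - gg T) * 2 ^ (EE ι).card ≤
      ((univ.filter fun a : EE ι → ZMod 2 => ¬ Nd (B + BB 0 (At α a)) ⊤).card : ℝ) := by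
  have h1 := count_fill_up B hB hT
  have h2 := Finset.card_filter_add_card_filter_not (s := (univ : Finset (EE ι → ZMod 2)))
    (fun a : EE ι → ZMod 2 => Nd (B + BB 0 (At α a)) ⊤)
  rw [Finset.card_univ, Fintype.card_fun, ZMod.card, Fintype.card_coe] at h2
  have h4 : ((univ.filter fun a : EE ι → ZMod 2 => Nd (B + BB 0 (At α a)) ⊤).card : ℝ) +
      ((univ.filter fun a : EE ι → ZMod 2 => ¬ Nd (B + BB 0 (At α a)) ⊤).card : ℝ) =
      2 ^ (EE ι).card := by exact_mod_cast h2
  linarith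

end fill

theorem det_iff {W : Type} [Fintype W] [DecidableEq W] {A : W → W → ZMod 2} {θ : W → ZMod 2} :
    Nd (BB θ A) ⊤ ↔ (MW A θ).det ≠ 0 := by
  refine ⟨det_ne, fun h v _ hv => ?_⟩
  by_contra hv0
  apply h
  apply Matrix.exists_vecMul_eq_zero_iff.1
  refine ⟨v, hv0, dotProduct_eq_zero _ fun y => ?_⟩
  rw [← Matrix.dotProduct_mulVec]
  have e : BB θ A v y = dotProduct v ((MW A θ).mulVec y) := by
    rw [BB_apply]
    simp only [dotProduct]
    exact Finset.sum_congr rfl fun w _ => by rw [MW_mulVec]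
  rw [← e, hv, LinearMap.zero_apply]

end Pool.Agent.E8helper79.QI
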