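import Pool.Agent.Y697.PP.Key
import Pool.Agent.E8helper79.QI.BoxG

/-! The sets of primes are distributed over boxes. -/

set_option autoImplicit false

namespace Pool.Agent.E8helper79.QI

open Finset
open Pool.Agent.Y697.PP
open Pool.Agent.Y697.MQ (leg OP Pr Pr_prod gA gθ)
open scoped Classical

theorem aux0 {K : ℕ} {κ : ℝ} (hκ : 0 ≤ κ) : (0 : ℝ) ≤ 2 ^ (2 * K ^ 2 + K) * 10 ^ K * κ := by
  positivity

theorem aux1 (J : Finset ℕ) (H : ℕ) : 0 ≤ ∏ j : J, (10 * (XX H j : ℝ)) :=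
  Finset.prod_nonneg fun _ _ => mul_nonneg (by norm_num) (Nat.cast_nonneg _)

theorem aux2 {A A' B B' κ P P' : ℝ} (hA : 0 ≤ A) (hB : 0 ≤ B) (hκ : 0 ≤ κ) (hP : 0 ≤ P)
    (h1 : A ≤ A') (h2 : B ≤ B') (h3 : P ≤ P') : A * (B * (κ * P)) ≤ A' * (B' * (κ * P')) :=
  mul_le_mul h1 (mul_le_mul h2 (mul_le_mul_of_nonneg_left h3 hκ) (mul_nonneg hκ hP) (hB.trans h2))
    (mul_nonneg hB (mul_nonneg hκ hP)) (hA.trans h1)

theorem aux3 (K : ℕ) (κ Y : ℝ) : (2 : ℝ) ^ ((K + 1) * K) * (2 ^ (K * K) * (κ * (10 ^ K * Y))) =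
    (2 ^ (2 * K ^ 2 + K) * 10 ^ K * κ) * Y := by
  have : (2 : ℝ) ^ (2 * K ^ 2 + K) = 2 ^ ((K + 1) * K) * 2 ^ (K * K) := by
    rw [← pow_add]
    congr 1
    ring
  rw [this]
  ring

theorem per_keyG {C : ℝ} (hC : 1 ≤ C) (hbil : ∀ (S T : Finset GaussianInt) (A B z : ℕ)
      (c d : GaussianInt → ℝ), (∀ p ∈ S, OP p) → (∀ p ∈ T, OP p) → 1 ≤ z → z ≤ A → z ≤ B →
      (∀ p ∈ S, nm p ≤ A) → (∀ p ∈ T, nm p ≤ B) → (∀ p, |c p| ≤ 1) → (∀ p, |d p| ≤ 1) →
      (TT S T c d) ^ 32 * z ≤ C * ((A : ℝ) * B) ^ 32)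
    {X z H K : ℕ} (hH : 1 ≤ H) (hz : 1 ≤ z) {κ : ℝ} (hκ : 0 ≤ κ) (hκz : C ≤ κ ^ 32 * z)
    {S₀ : Finset GaussianInt} {J : Finset ℕ} (hkey : (S₀, J) ∈ (RR X z H K).image (ky z H))
    (Q : Prop → Prop) {c : ℝ}
    (hQ : ∀ β : J → (S₀ → ZMod 2) × ZMod 2, Lg S₀ β → c * 2 ^ (EE J).card ≤
      ((univ.filter fun a : EE J → ZMod 2 =>
        Q (Nd (BB (tb S₀ β) (Ab S₀ β) + BB 0 (At S₀ a)) ⊤)).card : ℝ)) :
    c * (((RR X z H K).filter fun S => ky z H S = (S₀, J) ∧
      LgS (sm z S) (la z S)).card : ℝ) -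
      (2 ^ (2 * K ^ 2 + K) * 10 ^ K * κ) * (X / NS S₀) ≤
      (((RR X z H K).filter fun S => ky z H S = (S₀, J) ∧ Q (Dt S)).card : ℝ) := by
  have hkey' := hkey
  rw [Finset.mem_image] at hkey'
  obtain ⟨W, hW, hWk⟩ := hkey'
  unfold RR at hW
  rw [Finset.mem_filter, mem_SS, hWk] at hW
  obtain ⟨⟨hWO, hWX⟩, hWI, hWK, hWN⟩ := hW
  simp only at hWK hWN
  have hS₀ : sm z W = S₀ := congrArg Prod.fst hWk
  have hJ : (la z W).image (jj H) = J := congrArg Prod.snd hWk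
  have h₀O : ∀ q ∈ S₀, OP q := by
    intro q hq
    rw [← hS₀] at hq
    exact hWO q (Finset.mem_filter.1 hq).1
  have h₀ : ∀ q ∈ S₀, nm q ≤ z := by
    intro q hq
    rw [← hS₀] at hq
    exact (Finset.mem_filter.1 hq).2
  have h1 := key_bij hH hkey (fun S => LgS (sm z S) (la z S))
  have h2 := key_bij hH hkey (fun S => Q (Dt S))
  have h3 : (Fintype.piFinset fun i : J => CC z H i).filter
      (fun p => LgS (sm z (S₀ ∪ univ.image p)) (la z (S₀ ∪ univ.image p))) =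
      (Fintype.piFinset fun i : J => CC z H i).filter (fun p => Lg S₀ fun i => lab S₀ (p i)) := by
    apply Finset.filter_congr
    intro p hp
    rw [Fintype.mem_piFinset] at hp
    rw [sm_fill hH h₀ hp, la_fill hH h₀ hp, Lg_iff]
  rw [h3] at h1
  have hzX : ∀ i : J, z ≤ XX H i := by
    rintro ⟨i, h4⟩
    rw [← hJ, Finset.mem_image] at h4
    obtain ⟨q, hq, hqi⟩ := h4
    have h5 := nm_le_XX hH (hWO q (Finset.mem_filter.1 hq).1)
    rw [hqi] at h5
    have h6 := (Finset.mem_filter.1 hq).2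
    show z ≤ XX H i
    omega
  have h4 := boxG (ι := J) hC hbil (S₀ := S₀) h₀O (C := fun i : J => CC z H i)
    (fun i p hp => ((mem_CC hH).1 hp).1)
    (fun i j hij => by
      rw [Finset.disjoint_left]
      intro p hp hp'
      have h5 := ((mem_CC hH).1 hp).2.2
      have h6 := ((mem_CC hH).1 hp').2.2
      exact hij (Subtype.ext (h5.symm.trans h6)))
    (fun i p hp hp' => by
      have h5 := ((mem_CC hH).1 hp).2.1
      have h6 := h₀ p hp'
      omega)
    (X := fun i : J => XX H i) hz hzX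
    (fun i p hp => by
      have h5 := nm_le_XX hH ((mem_CC hH).1 hp).1
      rw [((mem_CC hH).1 hp).2.2] at h5
      exact h5) hκ hκz Q hQ
  rw [h1] at h4
  refine le_trans ?_ (h4.trans (le_of_eq ?_))
  swap
  · rw [← h2]
    apply congrArg
    apply congrArg
    ext p
    simp only [Finset.mem_filter]
    exact Iff.rfl
  apply sub_le_sub_left
  -- the error
  have hJK : J.card ≤ K := by omega
  have hSK : S₀.card ≤ K := by omega
  have hcJ : Fintype.card J = J.card := Fintype.card_coe J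
  have hEE : (EE J).card ≤ K * K := by
    unfold EE
    refine (Finset.card_filter_le _ _).trans ?_
    rw [Finset.card_univ, Fintype.card_prod, hcJ]
    exact Nat.mul_le_mul hJK hJK
  have hN0 : (0 : ℝ) < NS S₀ := by exact_mod_cast NS_pos h₀O
  have hprod : ∏ j : J, (10 * (XX H j : ℝ)) ≤ 10 ^ K * (X / NS S₀) := by
    rw [Finset.prod_mul_distrib, Finset.prod_const, Finset.card_univ, hcJ]
    have h5 : ∏ j : J, (XX H j : ℝ) = ((∏ k ∈ J, XX H k : ℕ) : ℝ) := by
      rw [← Finset.prod_coe_sort J (fun k => XX H k)]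
      push_cast
      rfl
    have h6 : ((∏ k ∈ J, XX H k : ℕ) : ℝ) ≤ X / NS S₀ := by
      rw [le_div_iff₀ hN0, mul_comm]
      exact_mod_cast hWN
    rw [h5]
    have h7 : (10 : ℝ) ^ J.card ≤ 10 ^ K := pow_le_pow_right₀ (by norm_num) hJK
    exact mul_le_mul h7 h6 (Nat.cast_nonneg _) (pow_nonneg (by norm_num) _)
  have h5 : ((2 : ℝ) ^ (S₀.card + 1)) ^ (Fintype.card J) ≤ 2 ^ ((K + 1) * K) := by
    rw [hcJ, ← pow_mul]
    exact pow_le_pow_right₀ (by norm_num) (Nat.mul_le_mul (by omega) hJK)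
  have h6 : (2 : ℝ) ^ (EE J).card ≤ 2 ^ (K * K) := pow_le_pow_right₀ (by norm_num) hEE
  exact (aux2 (pow_nonneg (pow_nonneg (by norm_num) _) _) (pow_nonneg (by norm_num) _) hκ
    (aux1 J H) h5 h6 hprod).trans (le_of_eq (aux3 K κ _))

theorem main_sumG {C : ℝ} (hC : 1 ≤ C) (hbil : ∀ (S T : Finset GaussianInt) (A B z : ℕ)
      (c d : GaussianInt → ℝ), (∀ p ∈ S, OP p) → (∀ p ∈ T, OP p) → 1 ≤ z → z ≤ A → z ≤ B →
      (∀ p ∈ S, nm p ≤ A) → (∀ p ∈ T, nm p ≤ B) → (∀ p, |c p| ≤ 1) → (∀ p, |d p| ≤ 1) →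
      (TT S T c d) ^ 32 * z ≤ C * ((A : ℝ) * B) ^ 32)
    {X z H K : ℕ} (hX : 1 ≤ X) (hH : 1 ≤ H) (hz : 1 ≤ z) {κ : ℝ} (hκ : 0 ≤ κ)
    (hκz : C ≤ κ ^ 32 * z) {N : ℕ} (hN : (H : ℝ) * Real.log X < N)
    (KP : Finset GaussianInt × Finset ℕ → Prop) (Q : Prop → Prop) {c : ℝ}
    (hQ : ∀ (S₀ : Finset GaussianInt) (J : Finset ℕ), (∀ p ∈ S₀, OP p) → KP (S₀, J) →
      ∀ β : J → (S₀ → ZMod 2) × ZMod 2, Lg S₀ β → c * 2 ^ (EE J).card ≤
      ((univ.filter fun a : EE J → ZMod 2 =>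
        Q (Nd (BB (tb S₀ β) (Ab S₀ β) + BB 0 (At S₀ a)) ⊤)).card : ℝ)) :
    c * (((RR X z H K).filter fun S => KP (ky z H S) ∧ LgS (sm z S) (la z S)).card : ℝ) -
      (N + 1) ^ K * ((2 ^ (2 * K ^ 2 + K) * 10 ^ K * κ) * (X * (40 * (1 + Real.log X)))) ≤
      (((SS X).filter fun S => Q (Dt S)).card : ℝ) := by
  set T := ((RR X z H K).filter fun S => KP (ky z H S)).image (ky z H) with hT
  set B : ℝ := 2 ^ (2 * K ^ 2 + K) * 10 ^ K * κ with hB
  have hB0 : 0 ≤ B := aux0 hκ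
  have hTK : ∀ k ∈ T, KP k ∧ k ∈ (RR X z H K).image (ky z H) := by
    intro k hk
    rw [hT, Finset.mem_image] at hk
    obtain ⟨S, hS, rfl⟩ := hk
    rw [Finset.mem_filter] at hS
    exact ⟨hS.2, Finset.mem_image_of_mem _ hS.1⟩
  have hfib : ∀ P : Finset GaussianInt → Prop,
      (((RR X z H K).filter fun S => KP (ky z H S) ∧ P S).card : ℝ) =
      ∑ k ∈ T, (((RR X z H K).filter fun S => ky z H S = k ∧ P S).card : ℝ) := by
    intro P
    rw [Finset.card_eq_sum_card_fiberwise (f := ky z H) (t := T) (by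
      intro S hS
      rw [Finset.mem_coe, Finset.mem_filter] at hS
      exact Finset.mem_coe.2 (Finset.mem_image_of_mem _ (Finset.mem_filter.2 ⟨hS.1, hS.2.1⟩)))]
    push_cast
    refine Finset.sum_congr rfl fun k hk => ?_
    congr 2
    ext S
    simp only [Finset.mem_filter]
    constructor
    · rintro ⟨⟨h1, h2, h3⟩, h4⟩
      exact ⟨h1, h4, h3⟩
    · rintro ⟨h1, h2, h3⟩
      exact ⟨⟨h1, by rw [h2]; exact (hTK k hk).1, h3⟩, h2⟩
  have h1 : (((RR X z H K).filter fun S => KP (ky z H S) ∧ Q (Dt S)).card : ℝ) ≤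
      (((SS X).filter fun S => Q (Dt S)).card : ℝ) := by
    have : (RR X z H K).filter (fun S => KP (ky z H S) ∧ Q (Dt S)) ⊆
        (SS X).filter fun S => Q (Dt S) := by
      intro S hS
      rw [Finset.mem_filter] at hS ⊢
      exact ⟨(Finset.mem_filter.1 hS.1).1, hS.2.2⟩
    exact_mod_cast Finset.card_le_card this
  refine le_trans ?_ h1
  rw [hfib, hfib, Finset.mul_sum]
  have h2 : ∑ k ∈ T, (c * (((RR X z H K).filter fun S => ky z H S = k ∧
      LgS (sm z S) (la z S)).card : ℝ) - B * (X / NS k.1)) ≤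
      ∑ k ∈ T, (((RR X z H K).filter fun S => ky z H S = k ∧ Q (Dt S)).card : ℝ) := by
    refine Finset.sum_le_sum fun k hk => ?_
    obtain ⟨S₀, J⟩ := k
    have hk' := hTK _ hk
    have hS₀ : ∀ p ∈ S₀, OP p := by
      obtain ⟨S, hS, hSk⟩ := Finset.mem_image.1 hk'.2
      unfold RR at hS
      rw [Finset.mem_filter, mem_SS] at hS
      intro p hp
      have h3 : sm z S = S₀ := congrArg Prod.fst hSk
      rw [← h3] at hp
      exact hS.1.1 p (Finset.mem_filter.1 hp).1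
    exact per_keyG hC hbil hH hz hκ hκz hk'.2 Q (hQ S₀ J hS₀ hk'.1)
  refine le_trans ?_ h2
  rw [Finset.sum_sub_distrib]
  apply sub_le_sub_left
  have hsub : T ⊆ (SS X) ×ˢ ((Finset.range N).powerset.filter fun J => J.card ≤ K) := by
    intro k hk
    rw [hT, Finset.mem_image] at hk
    obtain ⟨S, hS, rfl⟩ := hk
    rw [Finset.mem_filter] at hS
    replace hS := hS.1
    unfold RR at hS
    rw [Finset.mem_filter] at hS
    obtain ⟨hS1, hS2, hS3, hS4⟩ := hS
    have hS5 := mem_SS.1 hS1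
    rw [Finset.mem_product, Finset.mem_filter, Finset.mem_powerset]
    refine ⟨SS_sub hS1 (Finset.filter_subset _ _), ?_, by omega⟩
    intro j hj
    unfold ky at hj
    rw [Finset.mem_image] at hj
    obtain ⟨q, hq, rfl⟩ := hj
    have hqS := (Finset.mem_filter.1 hq).1
    have hqO := hS5.1 q hqS
    have hqX : nm q ≤ X := by
      have := NS_mono hS5.1 (Finset.singleton_subset_iff.2 hqS)
      have e : NS {q} = nm q := by
        unfold NS
        rw [Finset.prod_singleton]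
      rw [e] at this
      exact this.trans hS5.2
    rw [Finset.mem_range]
    have h3 : ((jj H q : ℕ) : ℝ) < N := by
      refine lt_of_le_of_lt (Nat.floor_le (mul_nonneg (Nat.cast_nonneg _) (log_nm_pos hqO).le)) ?_
      refine lt_of_le_of_lt ?_ hN
      refine mul_le_mul_of_nonneg_left ?_ (Nat.cast_nonneg _)
      exact Real.log_le_log (by exact_mod_cast nm_pos hqO.pr.ne_zero) (by exact_mod_cast hqX)
    exact_mod_cast h3
  have h3 : ∑ k ∈ T, B * (X / NS k.1) ≤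
      ∑ k ∈ (SS X) ×ˢ ((Finset.range N).powerset.filter fun J => J.card ≤ K), B * (X / NS k.1) :=
    Finset.sum_le_sum_of_subset_of_nonneg hsub fun _ _ _ =>
      mul_nonneg hB0 (div_nonneg (Nat.cast_nonneg _) (Nat.cast_nonneg _))
  refine h3.trans ?_
  rw [Finset.sum_product]
  simp only [Finset.sum_const, nsmul_eq_mul]
  rw [← Finset.mul_sum]
  have h4 : ((((Finset.range N).powerset.filter fun J => J.card ≤ K).card : ℕ) : ℝ) ≤
      (N + 1) ^ K := by exact_mod_cast card_sub N K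
  have h5 : ∑ S ∈ SS X, B * (X / NS S) ≤ B * (X * (40 * (1 + Real.log X))) := by
    have h6 : ∀ S ∈ SS X, B * ((X : ℝ) / NS S) = B * X * (1 / NS S) := by
      intro S _
      ring
    rw [Finset.sum_congr rfl h6, ← Finset.mul_sum]
    have h7 := mul_le_mul_of_nonneg_left (harm_SS hX) (mul_nonneg hB0 (Nat.cast_nonneg X))
    refine h7.trans (le_of_eq ?_)
    ring
  have h6 : 0 ≤ ∑ S ∈ SS X, B * ((X : ℝ) / NS S) := Finset.sum_nonneg fun _ _ =>
    mul_nonneg hB0 (div_nonneg (Nat.cast_nonneg _) (Nat.cast_nonneg _))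
  exact mul_le_mul h4 h5 h6 (pow_nonneg (add_nonneg (Nat.cast_nonneg _) zero_le_one) _)

/-- few sets have many small primes -/
theorem small_count {X z Z U : ℕ} (hZ : 1 ≤ Z) :
    ((((SS X).filter fun S => NS (sm z S) ≤ Z ∧ U < (sm z S).card).card : ℕ) : ℝ) * 2 ^ U ≤
      10 * X * (40 * (1 + Real.log Z)) ^ 2 := by
  set B := (SS X).filter fun S => NS (sm z S) ≤ Z ∧ U < (sm z S).card with hB
  have h2 : B.card = ∑ S₀ ∈ SS Z, (B.filter fun S => sm z S = S₀).card := by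
    apply Finset.card_eq_sum_card_fiberwise
    intro S hS
    rw [Finset.mem_coe, hB, Finset.mem_filter, mem_SS] at hS
    rw [Finset.mem_coe, mem_SS]
    exact ⟨fun p hp => hS.1.1 p (Finset.mem_filter.1 hp).1, hS.2.1⟩
  have h3 : ∀ S₀ ∈ SS Z, ((B.filter fun S => sm z S = S₀).card : ℝ) * 2 ^ U ≤
      10 * X * ((2 : ℝ) ^ S₀.card / NS S₀) := by
    intro S₀ hS₀
    rw [mem_SS] at hS₀
    have hN0 : (0 : ℝ) < NS S₀ := by exact_mod_cast NS_pos hS₀.1
    by_cases hU : U < S₀.card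
    · have h4 := card_sup (X := X) hS₀.1
      have h5 : ((B.filter fun S => sm z S = S₀).card : ℝ) ≤ 10 * X / NS S₀ := by
        refine le_trans ?_ h4
        have : B.filter (fun S => sm z S = S₀) ⊆ (SS X).filter fun S => S₀ ⊆ S := by
          intro S hS
          rw [Finset.mem_filter, hB, Finset.mem_filter] at hS
          rw [Finset.mem_filter]
          refine ⟨hS.1.1, ?_⟩
          rw [← hS.2]
          exact Finset.filter_subset _ _
        exact_mod_cast Finset.card_le_card this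
      have h6 : (2 : ℝ) ^ U ≤ 2 ^ S₀.card := pow_le_pow_right₀ (by norm_num) hU.le
      calc ((B.filter fun S => sm z S = S₀).card : ℝ) * 2 ^ U ≤
          (10 * X / NS S₀) * 2 ^ S₀.card := mul_le_mul h5 h6 (pow_nonneg (by norm_num) _)
            (div_nonneg (mul_nonneg (by norm_num) (Nat.cast_nonneg _)) (Nat.cast_nonneg _))
        _ = 10 * X * ((2 : ℝ) ^ S₀.card / NS S₀) := by ring
    · have h4 : (B.filter fun S => sm z S = S₀) = ∅ := by
        rw [Finset.filter_eq_empty_iff]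
        intro S hS h5
        rw [hB, Finset.mem_filter] at hS
        rw [← h5] at hU
        exact hU hS.2.2
      rw [h4, Finset.card_empty, Nat.cast_zero, zero_mul]
      exact mul_nonneg (mul_nonneg (by norm_num) (Nat.cast_nonneg _))
        (div_nonneg (pow_nonneg (by norm_num) _) (Nat.cast_nonneg _))
  rw [h2]
  push_cast
  rw [Finset.sum_mul]
  refine (Finset.sum_le_sum h3).trans ?_
  rw [← Finset.mul_sum]
  exact mul_le_mul_of_nonneg_left (sum_two_pow_div hZ)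
    (mul_nonneg (by norm_num) (Nat.cast_nonneg _))

end Pool.Agent.E8helper79.QI
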