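import Pool.Agent.E8helper79.QI.Up

/-! The limit of the products. -/

set_option autoImplicit false

namespace Pool.Agent.E8helper79.QI

open Finset Filter
open Pool.Agent.Y697.PP

theorem gg_even (n : ℕ) : gg (2 * n) = ∏ i ∈ Finset.range n, (1 - (1 / 2 : ℝ) ^ (2 * i + 1)) := by
  induction n with
  | zero => rfl
  | succ n ih =>
    rw [Finset.prod_range_succ, ← ih, show 2 * (n + 1) = (2 * n + 1) + 1 from by ring]
    show gg (2 * n) * (if Even (2 * n) then 1 - 1 / 2 ^ (2 * n + 1) else 1) *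
      (if Even (2 * n + 1) then 1 - 1 / 2 ^ (2 * n + 1 + 1) else 1) = _
    rw [if_pos (even_two_mul n), if_neg (by rw [Nat.not_even_iff_odd]; exact odd_two_mul_add_one n),
      mul_one, one_div_pow]

theorem mult_f : Multipliable (fun i : ℕ => 1 - (1 / 2 : ℝ) ^ (2 * i + 1)) := by
  have h1 : Summable (fun i : ℕ => ‖(-(1 / 2 : ℝ) ^ (2 * i + 1))‖) := by
    have h2 : Summable (fun i : ℕ => (1 / 2 : ℝ) * (1 / 4) ^ i) :=
      (summable_geometric_of_lt_one (by norm_num) (by norm_num)).mul_left _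
    refine h2.congr fun i => ?_
    rw [norm_neg, Real.norm_of_nonneg (by positivity), pow_succ, pow_mul]
    norm_num
    ring
  have h2 := multipliable_one_add_of_summable h1
  refine h2.congr fun i => ?_
  ring

theorem gg_lim : Tendsto gg atTop (nhds (∏' i : ℕ, (1 - (1 / 2 : ℝ) ^ (2 * i + 1)))) := by
  have h1 : Tendsto gg atTop (nhds (⨅ t, gg t)) :=
    tendsto_atTop_ciInf (fun a b h => gg_anti' h) ⟨0, by rintro _ ⟨t, rfl⟩; exact gg_nonneg t⟩
  have h2 : Tendsto (fun n : ℕ => gg (2 * n)) atTop (nhds (⨅ t, gg t)) :=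
    h1.comp (tendsto_id.const_mul_atTop' (by norm_num))
  have h3 : Tendsto (fun n : ℕ => gg (2 * n)) atTop
      (nhds (∏' i : ℕ, (1 - (1 / 2 : ℝ) ^ (2 * i + 1)))) := by
    refine (mult_f.hasProd.tendsto_prod_nat).congr fun n => ?_
    rw [gg_even]
  rw [← tendsto_nhds_unique h2 h3]
  exact h1

theorem lim_le (t : ℕ) : ∏' i : ℕ, (1 - (1 / 2 : ℝ) ^ (2 * i + 1)) ≤ gg t := by
  refine le_of_tendsto gg_lim ?_
  filter_upwards [eventually_ge_atTop t] with n hn
  exact gg_anti' hn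

end Pool.Agent.E8helper79.QI
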