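import Pool.Agent.Y697.PP.Mast
import Pool.Agent.E8helper79.QI.KeyG
import Pool.Agent.E8helper79.QI.Lim

/-! The two main inequalities with all error terms. -/

set_option autoImplicit false

namespace Pool.Agent.E8helper79.QI

open Finset
open Pool.Agent.Y697.PP
open Pool.Agent.Y697.MQ (leg OP Pr Pr_prod gA gθ)
open scoped Classical

/-- few small primes and many large primes -/
def KP (U V : ℕ) (k : Finset GaussianInt × Finset ℕ) : Prop := k.1.card ≤ U ∧ V ≤ k.2.card

theorem cover2 (X z H K U V : ℕ) (hz : 1 ≤ z) :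
    ((RR X z H K).filter fun S => LgS (sm z S) (la z S)).card ≤
    ((RR X z H K).filter fun S => KP U V (ky z H S) ∧ LgS (sm z S) (la z S)).card +
    ((SS X).filter fun S => (la z S).card < V).card +
    ((SS X).filter fun S => NS (sm z S) ≤ z ^ K ∧ U < (sm z S).card).card := by
  have h1 : (RR X z H K).filter (fun S => LgS (sm z S) (la z S)) ⊆
      ((RR X z H K).filter fun S => KP U V (ky z H S) ∧ LgS (sm z S) (la z S)) ∪
      ((SS X).filter fun S => (la z S).card < V) ∪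
      ((SS X).filter fun S => NS (sm z S) ≤ z ^ K ∧ U < (sm z S).card) := by
    intro S hS
    rw [Finset.mem_filter] at hS
    obtain ⟨hR, hL⟩ := hS
    have hR' := hR
    unfold RR at hR'
    rw [Finset.mem_filter] at hR'
    obtain ⟨hSS, hI, hK, -⟩ := hR'
    by_contra hc
    simp only [Finset.mem_union, Finset.mem_filter, not_or, not_and, not_lt] at hc
    obtain ⟨⟨h1, h2⟩, h3⟩ := hc
    have hV := h2 hSS
    have hsK : (sm z S).card ≤ K := by
      have : (ky z H S).1.card = (sm z S).card := rfl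
      omega
    have hNS : NS (sm z S) ≤ z ^ K := by
      rw [NS_eq]
      calc ∏ p ∈ sm z S, nm p ≤ ∏ p ∈ sm z S, z :=
            Finset.prod_le_prod' fun p hp => (Finset.mem_filter.1 hp).2
        _ = z ^ (sm z S).card := Finset.prod_const _
        _ ≤ z ^ K := Nat.pow_le_pow_right hz hsK
    have hU := h3 hSS hNS
    refine h1 hR ⟨hU, ?_⟩ hL
    show V ≤ ((la z S).image (jj H)).card
    rw [Finset.card_image_of_injOn hI]
    exact hV
  refine (Finset.card_le_card h1).trans ?_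
  refine (Finset.card_union_le _ _).trans (Nat.add_le_add_right ?_ _)
  exact Finset.card_union_le _ _

/-- the error terms of the cover -/
noncomputable def FE (X z H K V : ℕ) : ℝ :=
  400 * X * (1 + Real.log X) / 2 ^ K +
      (6 * X * Real.sqrt (K / H) + 12 * Real.sqrt X) +
      400 * X * (1 + Real.log X) * (15 / Real.sqrt H + 40 / Real.sqrt z) +
      24320000 * X * (1 + Real.log (z ^ K : ℕ)) ^ 3 / 2 ^ V +
      (((SS X).filter fun S => (la z S).card < V).card : ℝ)

theorem base {X z H K : ℕ} (V : ℕ) (hX : 1 ≤ X) (hH : 1 ≤ H) (hz : 1 ≤ z) :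
    ((SS X).card : ℝ) ≤ (((RR X z H K).filter fun S => LgS (sm z S) (la z S)).card : ℝ) +
      FE X z H K V := by
  unfold FE
  have h0 := cover X z H K V hz
  have h2 := many hX K
  have h3 := cut_count (z := z) (K := K) hX hH
  have h4 := coll_count hX hH hz
  have h5 := bad_count (X := X) (z := z) (Z := z ^ K) (V := V) (Nat.one_le_pow _ _ hz)
  have h2' : (((SS X).filter fun S => K < S.card).card : ℝ) ≤
      400 * X * (1 + Real.log X) / 2 ^ K := by
    rw [le_div_iff₀ (pow_pos (by norm_num) _)]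
    exact h2
  have h5' := (le_div_iff₀ (pow_pos (by norm_num) _)).2 h5
  have h0' : ((SS X).card : ℝ) ≤
      (((RR X z H K).filter fun S => LgS (sm z S) (la z S)).card : ℝ) +
      (((SS X).filter fun S => K < S.card).card : ℝ) +
      (((SS X).filter fun S => S.card ≤ K ∧
        X < NS (sm z S) * ∏ p ∈ la z S, XX H (jj H p)).card : ℝ) +
      (((SS X).filter fun S => ¬ Set.InjOn (jj H) (la z S : Set GaussianInt)).card : ℝ) +
      (((SS X).filter fun S => ¬ LgS (sm z S) (la z S) ∧ NS (sm z S) ≤ z ^ K ∧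
        V ≤ (la z S).card).card : ℝ) +
      (((SS X).filter fun S => (la z S).card < V).card : ℝ) := by exact_mod_cast h0
  linarith

theorem FE_nonneg (X z H K V : ℕ) : 0 ≤ FE X z H K V := by
  unfold FE
  have h1 : 0 ≤ Real.log X := Real.log_natCast_nonneg X
  have h2 : 0 ≤ Real.log ((z ^ K : ℕ) : ℝ) := Real.log_natCast_nonneg _
  have hX : (0 : ℝ) ≤ X := Nat.cast_nonneg _
  generalize ((z ^ K : ℕ) : ℝ) = w at h2
  refine add_nonneg (add_nonneg (add_nonneg (add_nonneg ?_ ?_) ?_) ?_) (Nat.cast_nonneg _)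
  · positivity
  · positivity
  · positivity
  · positivity

theorem masterL {C : ℝ} (hC : 1 ≤ C) (hbil : ∀ (S T : Finset GaussianInt) (A B z : ℕ)
      (c d : GaussianInt → ℝ), (∀ p ∈ S, OP p) → (∀ p ∈ T, OP p) → 1 ≤ z → z ≤ A → z ≤ B →
      (∀ p ∈ S, nm p ≤ A) → (∀ p ∈ T, nm p ≤ B) → (∀ p, |c p| ≤ 1) → (∀ p, |d p| ≤ 1) →
      (TT S T c d) ^ 32 * z ≤ C * ((A : ℝ) * B) ^ 32)
    {X z H K : ℕ} (V : ℕ) (hX : 1 ≤ X) (hH : 1 ≤ H) (hz : 1 ≤ z) {κ : ℝ} (hκ : 0 ≤ κ)
    (hκz : C ≤ κ ^ 32 * z) {N : ℕ} (hN : (H : ℝ) * Real.log X < N)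
    {c : ℝ} (hc0 : 0 ≤ c) (hc : ∀ t, c ≤ gg t) :
    c * ((SS X).card : ℝ) ≤ (((SS X).filter fun S => Dt S).card : ℝ) + (FE X z H K V +
      (N + 1) ^ K * ((2 ^ (2 * K ^ 2 + K) * 10 ^ K * κ) * (X * (40 * (1 + Real.log X))))) := by
  have h1 := main_sumG hC hbil hX hH hz hκ hκz hN (K := K) (fun _ => True) (fun p => p) (c := c)
    (fun S₀ J hS₀ _ β hβ => count_fill (α := S₀) (ι := J) (BB (tb S₀ β) (Ab S₀ β))
      (BB_symm _ (Ab_symm hS₀ β)) (nd_W0 hS₀ hβ) hc)
  simp only [true_and] at h1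
  have h2 := base (K := K) V hX hH hz
  have h3 := FE_nonneg X z H K V
  have hc1 : c ≤ 1 := (hc 0).trans (gg_le_one 0)
  have h4 : c * ((SS X).card : ℝ) ≤
      c * (((RR X z H K).filter fun S => LgS (sm z S) (la z S)).card : ℝ) + FE X z H K V := by
    calc c * ((SS X).card : ℝ) ≤ c * ((((RR X z H K).filter fun S =>
          LgS (sm z S) (la z S)).card : ℝ) + FE X z H K V) := mul_le_mul_of_nonneg_left h2 hc0
      _ = c * (((RR X z H K).filter fun S => LgS (sm z S) (la z S)).card : ℝ) +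
          c * FE X z H K V := by ring
      _ ≤ _ := by
          have := mul_le_mul_of_nonneg_right hc1 h3
          linarith
  linarith

theorem masterU {C : ℝ} (hC : 1 ≤ C) (hbil : ∀ (S T : Finset GaussianInt) (A B z : ℕ)
      (c d : GaussianInt → ℝ), (∀ p ∈ S, OP p) → (∀ p ∈ T, OP p) → 1 ≤ z → z ≤ A → z ≤ B →
      (∀ p ∈ S, nm p ≤ A) → (∀ p ∈ T, nm p ≤ B) → (∀ p, |c p| ≤ 1) → (∀ p, |d p| ≤ 1) →
      (TT S T c d) ^ 32 * z ≤ C * ((A : ℝ) * B) ^ 32)
    {X z H K : ℕ} {T U V : ℕ} (hX : 1 ≤ X) (hH : 1 ≤ H) (hz : 1 ≤ z) {κ : ℝ} (hκ : 0 ≤ κ)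
    (hκz : C ≤ κ ^ 32 * z) {N : ℕ} (hN : (H : ℝ) * Real.log X < N) (hT : T + U + 2 ≤ V) :
    (1 - gg T) * ((SS X).card : ℝ) ≤ (((SS X).filter fun S => ¬ Dt S).card : ℝ) + (FE X z H K V +
      (N + 1) ^ K * ((2 ^ (2 * K ^ 2 + K) * 10 ^ K * κ) * (X * (40 * (1 + Real.log X))))) +
      (((SS X).filter fun S => (la z S).card < V).card : ℝ) +
      10 * X * (40 * (1 + Real.log (z ^ K : ℕ))) ^ 2 / 2 ^ U := by
  have h1' := main_sumG hC hbil hX hH hz hκ hκz hN (K := K) (KP U V) (fun p => ¬ p)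
    (c := 1 - gg T) (by
      intro S₀ J hS₀ hk β hβ
      obtain ⟨hk1, hk2⟩ := hk
      simp only at hk1 hk2
      have hcard : T + Fintype.card S₀ + 2 ≤ Fintype.card J := by
        rw [Fintype.card_coe, Fintype.card_coe]
        omega
      refine (not_fill (α := S₀) (ι := J) (BB (tb S₀ β) (Ab S₀ β))
        (BB_symm _ (Ab_symm hS₀ β)) hcard).trans (le_of_eq ?_)
      congr!)
  have h1 : (1 - gg T) * (((RR X z H K).filter fun S => KP U V (ky z H S) ∧
      LgS (sm z S) (la z S)).card : ℝ) -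
      (N + 1) ^ K * ((2 ^ (2 * K ^ 2 + K) * 10 ^ K * κ) * (X * (40 * (1 + Real.log X)))) ≤
      (((SS X).filter fun S => ¬ Dt S).card : ℝ) := by
    refine h1'.trans (le_of_eq ?_)
    congr!
  have h2 := base (K := K) V hX hH hz
  have h3 := FE_nonneg X z H K V
  have h5 := cover2 X z H K U V hz
  have h5' : (((RR X z H K).filter fun S => LgS (sm z S) (la z S)).card : ℝ) ≤
      (((RR X z H K).filter fun S => KP U V (ky z H S) ∧ LgS (sm z S) (la z S)).card : ℝ) +
      (((SS X).filter fun S => (la z S).card < V).card : ℝ) +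
      (((SS X).filter fun S => NS (sm z S) ≤ z ^ K ∧ U < (sm z S).card).card : ℝ) := by
    exact_mod_cast h5
  have h6 := (le_div_iff₀ (pow_pos (by norm_num) _)).2
    (small_count (X := X) (z := z) (Z := z ^ K) (U := U) (Nat.one_le_pow _ _ hz))
  have hg0 := gg_nonneg T
  have hg1 := gg_le_one T
  have h7 : (0 : ℝ) ≤ (((SS X).filter fun S => (la z S).card < V).card : ℝ) := Nat.cast_nonneg _
  have h8 : (0 : ℝ) ≤ (((SS X).filter fun S => NS (sm z S) ≤ z ^ K ∧
    U < (sm z S).card).card : ℝ) := Nat.cast_nonneg _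
  set A : ℝ := (((RR X z H K).filter fun S => KP U V (ky z H S) ∧
    LgS (sm z S) (la z S)).card : ℝ) with hA
  set E1 : ℝ := (((SS X).filter fun S => (la z S).card < V).card : ℝ) with hE1
  set E2 : ℝ := (((SS X).filter fun S => NS (sm z S) ≤ z ^ K ∧ U < (sm z S).card).card : ℝ) with hE2
  have h9 : ((SS X).card : ℝ) ≤ A + (E1 + E2 + FE X z H K V) := by linarith
  have h10 : (1 - gg T) * ((SS X).card : ℝ) ≤ (1 - gg T) * A + (E1 + E2 + FE X z H K V) := by
    calc (1 - gg T) * ((SS X).card : ℝ) ≤ (1 - gg T) * (A + (E1 + E2 + FE X z H K V)) :=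
          mul_le_mul_of_nonneg_left h9 (by linarith)
      _ = (1 - gg T) * A + (1 - gg T) * (E1 + E2 + FE X z H K V) := by ring
      _ ≤ _ := by
          have : 0 ≤ gg T * (E1 + E2 + FE X z H K V) :=
            mul_nonneg hg0 (add_nonneg (add_nonneg h7 h8) h3)
          nlinarith
  linarith

end Pool.Agent.E8helper79.QI
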