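import Pool.Agent.E8helper75.QI.CntS
import Pool.Agent.E8helper79.QI.Fin

set_option autoImplicit false

namespace Pool.Agent.E8helper79.QI

theorem t_EXK : Pool.Agent.E8helper75.QI.S_EXK := exact

end Pool.Agent.E8helper79.QI
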